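import Mathlib
import Pool.Agent.L0h42.CL.Stm

set_option autoImplicit false

/-! IN: the mean value of the majorants of the Weyl sums against the exponential sum over the primes minus their model. -/

namespace Pool.Agent.L0h71.CL
open Finset
open Pool.Agent.L0h42.CL
open Pool.Agent.H807R2.Dav

theorem nd_cont : Continuous nd := by
  have h : nd = fun x : ℝ => ‖((x : ℝ) : UnitAddCircle)‖ := by
    funext x
    exact (UnitAddCircle.norm_eq (x := x)).symm
  rw [h]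
  exact continuous_norm.comp (AddCircle.continuous_mk' 1)

theorem nd_nonneg (x : ℝ) : 0 ≤ nd x := abs_nonneg _

theorem mn_cont (V : ℕ) : Continuous (mn V) := by
  unfold mn
  refine continuous_const.div (continuous_const.max (continuous_const.mul nd_cont)) fun x => ?_
  exact (lt_of_lt_of_le one_pos (le_max_left _ _)).ne'

theorem mn_nonneg (V : ℕ) (x : ℝ) : 0 ≤ mn V x :=
  div_nonneg (Nat.cast_nonneg _) (le_trans zero_le_one (le_max_left _ _))

theorem mn_le (V : ℕ) (x : ℝ) : mn V x ≤ V :=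
  div_le_self (Nat.cast_nonneg _) (le_max_left _ _)

theorem WD_cont (a0 : ℤ) (T D : ℕ) : Continuous (WD a0 T D) := by
  unfold WD
  refine continuous_const.add (continuous_const.mul (continuous_finsetSum _ fun j _ => ?_))
  exact (mn_cont _).comp (continuous_const.mul continuous_id)

theorem WD_nonneg (a0 : ℤ) (T D : ℕ) (α : ℝ) : 0 ≤ WD a0 T D α := by
  unfold WD
  have := Finset.sum_nonneg (s := Icc 1 (T / D + 1))
    (f := fun j : ℕ => mn (T / D + 1) (2 * a0 * (D : ℝ) ^ 2 * j * α)) fun j _ => mn_nonneg _ _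
  positivity

theorem WD_le (a0 : ℤ) (T D : ℕ) (α : ℝ) : WD a0 T D α ≤ 3 * ((T / D + 1 : ℕ) : ℝ) ^ 2 := by
  unfold WD
  have h1 : ∑ j ∈ Icc 1 (T / D + 1), mn (T / D + 1) (2 * a0 * (D : ℝ) ^ 2 * j * α) ≤
      ((T / D + 1 : ℕ) : ℝ) * ((T / D + 1 : ℕ) : ℝ) := by
    refine (Finset.sum_le_sum fun j _ => mn_le _ _).trans ?_
    rw [Finset.sum_const, Nat.card_Icc, nsmul_eq_mul, Nat.add_sub_cancel]
  have h2 : (1 : ℝ) ≤ ((T / D + 1 : ℕ) : ℝ) := by
    push_cast
    linarith [Nat.cast_nonneg (α := ℝ) (T / D)]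
  nlinarith

/-- the indicator function of a major arc -/
noncomputable def ind (δ : ℝ) (q b : ℕ) (α : ℝ) : ℝ :=
  (Set.Icc (((b : ℝ) - δ) / q) (((b : ℝ) + δ) / q)).indicator (fun _ => (1 : ℝ)) α

theorem ind_nonneg (δ : ℝ) (q b : ℕ) (α : ℝ) : 0 ≤ ind δ q b α :=
  Set.indicator_nonneg (fun _ _ => zero_le_one) _

theorem ind_integrable (δ : ℝ) (q b : ℕ) : MeasureTheory.Integrable (ind δ q b) := by
  unfold ind
  refine (MeasureTheory.integrable_indicator_iff measurableSet_Icc).2 ?_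
  exact MeasureTheory.integrableOn_const (measure_Icc_lt_top.ne)

theorem ind_int (δ : ℝ) (hδ : 0 ≤ δ) (q b : ℕ) (hq : 1 ≤ q) :
    ∫ α in (0 : ℝ)..1, ind δ q b α ≤ 2 * δ / q := by
  have hq0 : (0 : ℝ) < q := by exact_mod_cast hq
  rw [intervalIntegral.integral_of_le zero_le_one]
  refine (MeasureTheory.setIntegral_le_integral (ind_integrable δ q b)
    (Filter.Eventually.of_forall fun α => ind_nonneg δ q b α)).trans ?_
  unfold ind
  rw [MeasureTheory.integral_indicator_const _ measurableSet_Icc]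
  rw [MeasureTheory.measureReal_def, Real.volume_Icc, ENNReal.toReal_ofReal]
  · rw [smul_eq_mul, mul_one, ← sub_div]
    apply le_of_eq
    ring
  · rw [← sub_div]
    exact div_nonneg (by linarith) hq0.le

theorem mem_major {δ α : ℝ} {q : ℕ} (hq : 1 ≤ q) (h0 : 0 ≤ α) (h1 : α ≤ 1)
    (hnd : nd (q * α) ≤ δ) : ∃ b ∈ range (q + 1), ind δ q b α = 1 := by
  have hq0 : (0 : ℝ) < q := by exact_mod_cast hq
  have e1 := abs_sub_round ((q : ℝ) * α)
  obtain ⟨e2, e3⟩ := abs_le.1 e1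
  have e4 : (0 : ℝ) ≤ q * α := by positivity
  have e5 : (q : ℝ) * α ≤ q := by nlinarith
  have e6 : (0 : ℤ) ≤ round ((q : ℝ) * α) := by
    have : (-1 : ℝ) < (round ((q : ℝ) * α) : ℤ) := by linarith
    have : (-1 : ℤ) < round ((q : ℝ) * α) := by exact_mod_cast this
    omega
  have e7 : round ((q : ℝ) * α) < (q : ℤ) + 1 := by
    have : ((round ((q : ℝ) * α) : ℤ) : ℝ) < (q : ℝ) + 1 := by linarith
    exact_mod_cast this
  refine ⟨(round ((q : ℝ) * α)).toNat, ?_, ?_⟩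
  · rw [mem_range]
    omega
  · unfold ind
    rw [Set.indicator_of_mem]
    have e8 : (((round ((q : ℝ) * α)).toNat : ℕ) : ℝ) = ((round ((q : ℝ) * α) : ℤ) : ℝ) := by
      have : (((round ((q : ℝ) * α)).toNat : ℕ) : ℤ) = round ((q : ℝ) * α) := Int.toNat_of_nonneg e6
      exact_mod_cast congrArg (fun x : ℤ => (x : ℝ)) this
    rw [e8]
    obtain ⟨e9, e10⟩ := abs_le.1 hnd
    rw [Set.mem_Icc, div_le_iff₀ hq0, le_div_iff₀ hq0]
    constructor <;> nlinarith

theorem ee_conj (x : ℝ) : (starRingEnd ℂ) (ee x) = ee (-x) := by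
  unfold ee
  rw [← Complex.exp_conj]
  congr 1
  have h2 : (starRingEnd ℂ) 2 = 2 := map_ofNat (starRingEnd ℂ) 2
  simp [Complex.conj_ofReal, h2]

theorem ee_integral (m : ℤ) : ∫ α in (0 : ℝ)..1, ee ((m : ℝ) * α) = if m = 0 then 1 else 0 := by
  by_cases hm : m = 0
  · subst hm
    simp [ee]
  · rw [if_neg hm]
    have hc : (2 * (Real.pi : ℂ) * (m : ℂ) * Complex.I) ≠ 0 := by
      have h1 : (Real.pi : ℂ) ≠ 0 := by exact_mod_cast Real.pi_ne_zero
      have h2 : (m : ℂ) ≠ 0 := by exact_mod_cast hm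
      have h3 := Complex.I_ne_zero
      simp [h1, h2, h3]
    have h := integral_exp_mul_complex (a := (0 : ℝ)) (b := 1) hc
    have e : (fun α : ℝ => ee ((m : ℝ) * α)) =
        fun α : ℝ => Complex.exp (2 * (Real.pi : ℂ) * (m : ℂ) * Complex.I * α) := by
      funext α
      unfold ee
      congr 1
      push_cast
      ring
    rw [e, h]
    have h1 : Complex.exp (2 * (Real.pi : ℂ) * (m : ℂ) * Complex.I * ((1 : ℝ) : ℂ)) = 1 := by
      rw [Complex.exp_eq_one_iff]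
      exact ⟨m, by push_cast; ring⟩
    rw [h1]
    simp

theorem ee_cont (m : ℝ) : Continuous (fun α : ℝ => ee (m * α)) := by
  unfold ee
  fun_prop

theorem pars (J : Finset ℕ) (C : ℕ → ℝ) :
    ∫ α in (0 : ℝ)..1, ‖∑ ν ∈ J, (C ν : ℂ) * ee ((ν : ℝ) * α)‖ ^ 2 = ∑ ν ∈ J, (C ν) ^ 2 := by
  apply Complex.ofReal_injective
  rw [← intervalIntegral.integral_ofReal]
  have e : ∀ α : ℝ, ((‖∑ ν ∈ J, (C ν : ℂ) * ee ((ν : ℝ) * α)‖ ^ 2 : ℝ) : ℂ) =
      ∑ μ ∈ J, ∑ ν ∈ J, ((C μ : ℂ) * (C ν : ℂ)) * ee (((((μ : ℤ) - (ν : ℤ)) : ℤ) : ℝ) * α) := by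
    intro α
    push_cast
    rw [← Complex.mul_conj', map_sum, Finset.sum_mul_sum]
    refine Finset.sum_congr rfl fun μ _ => Finset.sum_congr rfl fun ν _ => ?_
    rw [map_mul, ee_conj, Complex.conj_ofReal]
    have : ((μ : ℝ) - (ν : ℝ)) * α = (μ : ℝ) * α + -((ν : ℝ) * α) := by ring
    rw [this, ee_add]
    ring
  simp_rw [e]
  rw [intervalIntegral.integral_finsetSum]
  · rw [Complex.ofReal_sum]
    refine Finset.sum_congr rfl fun μ hμ => ?_
    rw [intervalIntegral.integral_finsetSum]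
    · simp_rw [intervalIntegral.integral_const_mul, ee_integral]
      rw [Finset.sum_eq_single μ]
      · simp [sq]
      · intro ν _ hν
        rw [if_neg (by omega)]
        simp
      · intro h; exact absurd hμ h
    · intro ν _
      exact ((continuous_const.mul (ee_cont _)).intervalIntegrable _ _)
  · intro μ _
    refine Continuous.intervalIntegrable ?_ _ _
    refine continuous_finsetSum _ fun ν _ => ?_
    exact continuous_const.mul (ee_cont _)

/-- the integral of a product which is small outside the major arcs -/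
theorem split_int (G H : ℝ → ℝ) (hG : Continuous G) (hH : Continuous H) (hG0 : ∀ α, 0 ≤ G α)
    (hH0 : ∀ α, 0 ≤ H α) (Q : ℕ) (δ a b c : ℝ) (ha : 0 ≤ a) (hδ : 0 ≤ δ)
    (hmin : ∀ α, (∀ q : ℕ, 1 ≤ q → q ≤ Q → δ < nd (q * α)) → G α ≤ a) (hb : ∀ α, G α ≤ b)
    (hc : ∀ α, H α ≤ c) :
    ∫ α in (0 : ℝ)..1, G α * H α ≤ a * (∫ α in (0 : ℝ)..1, H α) + b * c * (4 * δ * Q) := by
  have hb0 : 0 ≤ b := (hG0 0).trans (hb 0)
  have hc0 : 0 ≤ c := (hH0 0).trans (hc 0)
  have hbc : 0 ≤ b * c := mul_nonneg hb0 hc0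
  have hpt : ∀ α ∈ Set.Icc (0 : ℝ) 1, G α * H α ≤
      a * H α + b * c * ∑ q ∈ Icc 1 Q, ∑ m ∈ range (q + 1), ind δ q m α := by
    rintro α ⟨h0, h1⟩
    have hs0 : 0 ≤ ∑ q ∈ Icc 1 Q, ∑ m ∈ range (q + 1), ind δ q m α :=
      Finset.sum_nonneg fun q _ => Finset.sum_nonneg fun m _ => ind_nonneg _ _ _ _
    by_cases h : ∀ q : ℕ, 1 ≤ q → q ≤ Q → δ < nd (q * α)
    · have h2 : G α * H α ≤ a * H α := mul_le_mul_of_nonneg_right (hmin α h) (hH0 α)
      have h3 := mul_nonneg hbc hs0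
      linarith
    · push Not at h
      obtain ⟨q, hq1, hqQ, hq⟩ := h
      obtain ⟨m, hm, hmi⟩ := mem_major hq1 h0 h1 hq
      have h2 : (1 : ℝ) ≤ ∑ q ∈ Icc 1 Q, ∑ m ∈ range (q + 1), ind δ q m α := by
        calc (1 : ℝ) = ind δ q m α := hmi.symm
          _ ≤ ∑ m ∈ range (q + 1), ind δ q m α :=
            Finset.single_le_sum (f := fun m => ind δ q m α) (fun m _ => ind_nonneg _ _ _ _) hm
          _ ≤ _ := Finset.single_le_sum (f := fun q => ∑ m ∈ range (q + 1), ind δ q m α)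
            (fun q _ => Finset.sum_nonneg fun m _ => ind_nonneg _ _ _ _)
            (Finset.mem_Icc.2 ⟨hq1, hqQ⟩)
      have h3 : G α * H α ≤ b * c := mul_le_mul (hb α) (hc α) (hH0 α) hb0
      have h4 : b * c * 1 ≤ b * c * ∑ q ∈ Icc 1 Q, ∑ m ∈ range (q + 1), ind δ q m α :=
        mul_le_mul_of_nonneg_left h2 hbc
      have h5 := mul_nonneg ha (hH0 α)
      linarith
  have hi1 : IntervalIntegrable (fun α => G α * H α) MeasureTheory.volume 0 1 :=
    (hG.mul hH).intervalIntegrable _ _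
  have hi2 : IntervalIntegrable (fun α => a * H α) MeasureTheory.volume 0 1 :=
    (continuous_const.mul hH).intervalIntegrable _ _
  have hi3 : ∀ q m : ℕ, IntervalIntegrable (fun α => ind δ q m α) MeasureTheory.volume 0 1 :=
    fun q m => (ind_integrable δ q m).intervalIntegrable
  have hi4' : ∀ q : ℕ, MeasureTheory.Integrable (fun α => ∑ m ∈ range (q + 1), ind δ q m α) :=
    fun q => MeasureTheory.integrable_finsetSum _ fun m _ => ind_integrable δ q m
  have hi4 : ∀ q : ℕ, IntervalIntegrable (fun α => ∑ m ∈ range (q + 1), ind δ q m α)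
      MeasureTheory.volume 0 1 := fun q => (hi4' q).intervalIntegrable
  have hi5 : IntervalIntegrable (fun α => ∑ q ∈ Icc 1 Q, ∑ m ∈ range (q + 1), ind δ q m α)
      MeasureTheory.volume 0 1 :=
    (MeasureTheory.integrable_finsetSum _ fun q _ => hi4' q).intervalIntegrable
  refine (intervalIntegral.integral_mono_on zero_le_one hi1
    (hi2.add (hi5.const_mul (b * c))) hpt).trans ?_
  rw [intervalIntegral.integral_add hi2 (hi5.const_mul (b * c)),
    intervalIntegral.integral_const_mul, intervalIntegral.integral_const_mul,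
    intervalIntegral.integral_finsetSum fun q _ => hi4 q]
  refine add_le_add le_rfl (mul_le_mul_of_nonneg_left ?_ hbc)
  have h6 : ∀ q ∈ Icc 1 Q, ∫ α in (0 : ℝ)..1, ∑ m ∈ range (q + 1), ind δ q m α ≤ 4 * δ := by
    intro q hq
    have hq1 := (Finset.mem_Icc.1 hq).1
    have hq0 : (1 : ℝ) ≤ q := by exact_mod_cast hq1
    rw [intervalIntegral.integral_finsetSum fun m _ => hi3 q m]
    refine (Finset.sum_le_sum fun m _ => ind_int δ hδ q m hq1).trans ?_
    rw [Finset.sum_const, Finset.card_range, nsmul_eq_mul, ← mul_div_assoc,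
      div_le_iff₀ (by linarith)]
    push_cast
    nlinarith
  refine (Finset.sum_le_sum h6).trans ?_
  rw [Finset.sum_const, Nat.card_Icc, nsmul_eq_mul, Nat.add_sub_cancel]
  apply le_of_eq
  ring

end Pool.Agent.L0h71.CL

namespace Pool.Agent.L0h71.CL
open Finset
open Pool.Agent.L0h42.CL
open Pool.Agent.L0h42.TB
open Pool.Agent.H373R2.T7
open Pool.Agent.H807R2.Dav

/-- the trivial bound for the sum over the moduli -/
theorem sum_WD_le {N T : ℕ} (hN : 3 ≤ N) (hTN : T ^ 2 ≤ N) (hL : 1 ≤ Real.log N) (a0 : ℤ) (α : ℝ) :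
    ∑ D ∈ QQ N, (D : ℝ) * WD a0 T D α ≤ 15 * N * Real.log N := by
  have hN1 : 1 ≤ N := by omega
  have hN0 : (1 : ℝ) ≤ N := by exact_mod_cast hN1
  obtain ⟨t, ht0, ht40, hsq⟩ := exists_t N hN1
  have ht1 : 1 ≤ t := by
    by_contra h
    push Not at h
    have := pow_lt_one₀ ht0 h (show (40 : ℕ) ≠ 0 by norm_num)
    linarith
  have hT : (T : ℝ) ≤ t ^ 20 := by
    rw [← hsq]
    apply Real.le_sqrt_of_sq_le
    exact_mod_cast hTN
  have hQ : ∀ D ∈ QQ N, 1 ≤ D ∧ (D : ℝ) ≤ t ^ 2 := by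
    intro D hD
    unfold QQ at hD
    rw [mem_filter, mem_Icc] at hD
    refine ⟨hD.1.1, ?_⟩
    apply le_of_pow_le_pow_left₀ (n := 20) (by norm_num) (by positivity)
    rw [← pow_mul]
    norm_num
    rw [ht40]
    exact_mod_cast hD.2.2
  have hcard : ((QQ N).card : ℝ) ≤ t ^ 2 := by
    have h1 : QQ N ⊆ Icc 1 ⌊t ^ 2⌋₊ := by
      intro D hD
      rw [mem_Icc]
      exact ⟨(hQ D hD).1, Nat.le_floor (hQ D hD).2⟩
    have h2 := Finset.card_le_card h1
    rw [Nat.card_Icc, Nat.add_sub_cancel] at h2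
    calc ((QQ N).card : ℝ) ≤ (⌊t ^ 2⌋₊ : ℝ) := by exact_mod_cast h2
      _ ≤ t ^ 2 := Nat.floor_le (by positivity)
  have hterm : ∀ D ∈ QQ N, (D : ℝ) * WD a0 T D α ≤ 3 * ((T : ℝ) ^ 2 * (1 / D) + 3 * t ^ 20) := by
    intro D hD
    obtain ⟨hD1, hD2⟩ := hQ D hD
    have hDr : (1 : ℝ) ≤ D := by exact_mod_cast hD1
    have h1 := WD_le a0 T D α
    have h2 : ((T / D + 1 : ℕ) : ℝ) ≤ T / D + 1 := by
      push_cast
      have := Nat.cast_div_le (α := ℝ) (m := T) (n := D)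
      linarith
    have h3 : ((T / D + 1 : ℕ) : ℝ) ^ 2 ≤ ((T : ℝ) / D + 1) ^ 2 :=
      pow_le_pow_left₀ (Nat.cast_nonneg _) h2 2
    have h4 : (D : ℝ) * ((T : ℝ) / D + 1) ^ 2 = (T : ℝ) ^ 2 * (1 / D) + 2 * T + D := by
      field_simp
      ring
    have h5 : t ^ 2 ≤ t ^ 20 := pow_le_pow_right₀ ht1 (by norm_num)
    calc (D : ℝ) * WD a0 T D α ≤ D * (3 * ((T : ℝ) / D + 1) ^ 2) := by
          apply mul_le_mul_of_nonneg_left _ (by linarith)
          linarith
      _ = 3 * ((T : ℝ) ^ 2 * (1 / D) + 2 * T + D) := by rw [← h4]; ring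
      _ ≤ 3 * ((T : ℝ) ^ 2 * (1 / D) + 3 * t ^ 20) := by linarith
  have hharm : ∑ D ∈ QQ N, (1 / (D : ℝ)) ≤ 1 + Real.log N := by
    have h1 : ∑ D ∈ QQ N, (1 / (D : ℝ)) ≤ ∑ n ∈ Icc 1 N, 1 / (n : ℝ) :=
      sum_le_sum_of_subset_of_nonneg (filter_subset _ _) (fun _ _ _ => by positivity)
    have h2 : ∑ n ∈ Icc 1 N, 1 / (n : ℝ) = ((harmonic N : ℚ) : ℝ) := by
      rw [harmonic_eq_sum_Icc]
      push_cast
      simp
    rw [h2] at h1
    exact h1.trans (harmonic_le_one_add_log N)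
  have hT2 : (T : ℝ) ^ 2 ≤ N := by exact_mod_cast hTN
  have h6 : t ^ 2 * (3 * t ^ 20) ≤ 3 * N := by
    rw [← ht40]
    have : t ^ 22 ≤ t ^ 40 := pow_le_pow_right₀ ht1 (by norm_num)
    nlinarith
  calc ∑ D ∈ QQ N, (D : ℝ) * WD a0 T D α ≤ ∑ D ∈ QQ N, 3 * ((T : ℝ) ^ 2 * (1 / D) + 3 * t ^ 20) :=
        sum_le_sum hterm
    _ = 3 * ((T : ℝ) ^ 2 * ∑ D ∈ QQ N, (1 / (D : ℝ)) + (QQ N).card * (3 * t ^ 20)) := by
        rw [← mul_sum, sum_add_distrib, ← mul_sum, sum_const, nsmul_eq_mul]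
    _ ≤ 3 * (N * (1 + Real.log N) + t ^ 2 * (3 * t ^ 20)) := by
        have h7 : (T : ℝ) ^ 2 * ∑ D ∈ QQ N, (1 / (D : ℝ)) ≤ N * (1 + Real.log N) :=
          mul_le_mul hT2 hharm (Finset.sum_nonneg fun _ _ => by positivity) (by linarith)
        have h8 : ((QQ N).card : ℝ) * (3 * t ^ 20) ≤ t ^ 2 * (3 * t ^ 20) :=
          mul_le_mul_of_nonneg_right hcard (by positivity)
        linarith
    _ ≤ 3 * (N * (1 + Real.log N) + 3 * N) := by linarith
    _ ≤ 15 * N * Real.log N := by nlinarith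

/-- IN -/
theorem t_IN (hMA : S_MA) : S_IN := by
  intro a0 ha0 A K'
  obtain ⟨B, m1, h1⟩ := hMA a0 ha0 (A + 3) K'
  obtain ⟨E0, h2⟩ := tbv_sup 1 (A + B + 2) le_rfl
  refine ⟨E0, fun E => ?_⟩
  obtain ⟨m2, h3⟩ := h2 E
  obtain ⟨m3, h4⟩ := Vz_inv_small E
  obtain ⟨m4, h5⟩ := ev_L' 8
  refine ⟨max (max m1 m2) (max m3 (max m4 3)), ?_⟩
  intro N hN z T Y hz1 hz2 hNT hTN hYN
  have n1 : m1 ≤ N := le_trans (le_trans (le_max_left _ _) (le_max_left _ _)) hN
  have n2 : m2 ≤ N := le_trans (le_trans (le_max_right _ _) (le_max_left _ _)) hN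
  have n3 : m3 ≤ N := le_trans (le_trans (le_max_left _ _) (le_max_right _ _)) hN
  have nn := le_trans (le_max_right m3 _) (le_trans (le_max_right _ _) hN)
  have n4 : m4 ≤ N := le_trans (le_max_left _ _) nn
  have hN3 : 3 ≤ N := le_trans (le_max_right _ _) nn
  have hN1 : 1 ≤ N := by omega
  have hN0 : (0 : ℝ) < N := by exact_mod_cast hN1
  have hL8 := h5 N n4
  set L := Real.log N with hLd
  have hL1 : 1 ≤ L := by linarith
  have hL0 : 0 < L := by linarith
  have hz : 1 ≤ z := by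
    have h6 : (1 : ℝ) ≤ z := (one_le_pow₀ hL1).trans hz1
    exact_mod_cast h6
  have hV := h4 N n3 z hz hz2
  -- the size of `dl`
  have hdl : ∀ n, n ≤ N → |dl z n| ≤ L := by
    intro n hn
    unfold dl
    rw [abs_le]
    have g2 := pl_nonneg n
    have g3 := pl_le_log hn hN1
    have g4 := lamz_nonneg z n
    have g5 : lamz z n ≤ L := by
      unfold lamz
      split_ifs
      · exact hV
      · exact hL0.le
    constructor <;> linarith
  -- the two functions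
  set G : ℝ → ℝ := fun α => ∑ D ∈ QQ N, (D : ℝ) * WD a0 T D α with hG
  set H : ℝ → ℝ := fun α => ‖∑ n ∈ Icc 1 Y, ((dl z n : ℝ) : ℂ) * ee (n * α)‖ ^ 2 with hH
  have hFc : Continuous fun α : ℝ => ∑ n ∈ Icc 1 Y, ((dl z n : ℝ) : ℂ) * ee (n * α) :=
    continuous_finsetSum _ fun n _ => continuous_const.mul (ee_cont n)
  have hHc : Continuous H := hFc.norm.pow 2
  have hGc : Continuous G := continuous_finsetSum _ fun D _ =>
    continuous_const.mul (WD_cont a0 T D)
  have hG0 : ∀ α, 0 ≤ G α := fun α => Finset.sum_nonneg fun D _ =>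
    mul_nonneg (Nat.cast_nonneg _) (WD_nonneg a0 T D α)
  have hH0 : ∀ α, 0 ≤ H α := fun α => by positivity
  have hsum : ∑ D ∈ QQ N, (D : ℝ) * ∫ α in (0 : ℝ)..1, WD a0 T D α *
      ‖∑ n ∈ Icc 1 Y, ((dl z n : ℝ) : ℂ) * ee (n * α)‖ ^ 2 = ∫ α in (0 : ℝ)..1, G α * H α := by
    have e1 : ∀ α, G α * H α = ∑ D ∈ QQ N, (D : ℝ) * (WD a0 T D α * H α) := by
      intro α
      rw [hG]
      simp only
      rw [Finset.sum_mul]
      exact Finset.sum_congr rfl fun D _ => by ring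
    simp_rw [e1]
    rw [intervalIntegral.integral_finsetSum]
    · refine Finset.sum_congr rfl fun D _ => ?_
      rw [intervalIntegral.integral_const_mul]
    · intro D _
      exact (continuous_const.mul ((WD_cont a0 T D).mul hHc)).intervalIntegrable _ _
  rw [hsum]
  -- Parseval
  have hpars : ∫ α in (0 : ℝ)..1, H α ≤ N * L ^ 2 := by
    have e1 := pars (Icc 1 Y) (dl z)
    calc ∫ α in (0 : ℝ)..1, H α = ∑ n ∈ Icc 1 Y, dl z n ^ 2 := e1
      _ ≤ ∑ n ∈ Icc 1 Y, L ^ 2 := by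
          refine Finset.sum_le_sum fun n hn => ?_
          rw [← sq_abs]
          exact pow_le_pow_left₀ (abs_nonneg _)
            (hdl n (le_trans (Finset.mem_Icc.1 hn).2 hYN)) 2
      _ = Y * L ^ 2 := by
          rw [Finset.sum_const, Nat.card_Icc, nsmul_eq_mul, Nat.add_sub_cancel]
      _ ≤ N * L ^ 2 := by
          apply mul_le_mul_of_nonneg_right _ (by positivity)
          exact_mod_cast hYN
  -- the sup norm
  have hsup : ∀ α, H α ≤ (N / L ^ (A + B + 2)) ^ 2 := by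
    intro α
    obtain ⟨M, hM0, hM1, hM2⟩ := h3 N n2 z hz1 hz2 α
    have e1 : 1 ∈ QQ N := by
      unfold QQ
      rw [mem_filter, mem_Icc]
      exact ⟨⟨le_rfl, hN1⟩, squarefree_one, by rw [one_pow]; exact hN1⟩
    have e2 : M 1 ≤ N / L ^ (A + B + 2) := by
      refine le_trans ?_ hM2
      have e3 := Finset.single_le_sum (f := fun q => ((1 : ℕ) : ℝ) ^ q.primeFactors.card * M q)
        (fun q _ => mul_nonneg (by positivity) (hM0 q)) e1
      simpa using e3
    have e4 := hM1 1 le_rfl 0 Y (Nat.coprime_one_right 0) hYN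
    have e5 : ES z 1 0 Y α = ∑ n ∈ Icc 1 Y, ((dl z n : ℝ) : ℂ) * ee (n * α) := by
      unfold ES dl
      refine Finset.sum_congr rfl fun n _ => ?_
      rw [if_pos (Nat.modEq_one)]
    rw [e5] at e4
    exact pow_le_pow_left₀ (norm_nonneg _) (e4.trans e2) 2
  have hfin := split_int G H hGc hHc hG0 hH0 ⌊L ^ B⌋₊ (L ^ B / N) (N / L ^ (A + 3))
    (15 * N * L) ((N / L ^ (A + B + 2)) ^ 2) (by positivity) (by positivity)
    (fun α hα => h1 N n1 T hNT hTN α fun q hq hqB => hα q hq (Nat.le_floor hqB))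
    (fun α => sum_WD_le hN3 hTN hL1 a0 α) hsup
  refine hfin.trans ?_
  have hfl : ((⌊L ^ B⌋₊ : ℕ) : ℝ) ≤ L ^ B := Nat.floor_le (by positivity)
  calc (N : ℝ) / L ^ (A + 3) * (∫ α in (0 : ℝ)..1, H α) +
        15 * N * L * (N / L ^ (A + B + 2)) ^ 2 * (4 * (L ^ B / N) * (⌊L ^ B⌋₊ : ℕ)) ≤
      (N : ℝ) / L ^ (A + 3) * (N * L ^ 2) +
        15 * N * L * (N / L ^ (A + B + 2)) ^ 2 * (4 * (L ^ B / N) * L ^ B) := by
        gcongr
    _ = (N : ℝ) ^ 2 / L ^ A * (1 / L) + (N : ℝ) ^ 2 / L ^ A * (60 / L ^ (A + 3)) := by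
        congr 1
        · rw [pow_add]
          field_simp
        · have : L ^ (A + B + 2) = L ^ A * L ^ B * L ^ 2 := by ring
          rw [this, pow_add]
          field_simp
          ring
    _ ≤ (N : ℝ) ^ 2 / L ^ A * (1 / 8) + (N : ℝ) ^ 2 / L ^ A * (60 / 512) := by
        have hp : 0 ≤ (N : ℝ) ^ 2 / L ^ A := by positivity
        refine add_le_add (mul_le_mul_of_nonneg_left ?_ hp) (mul_le_mul_of_nonneg_left ?_ hp)
        · exact one_div_le_one_div_of_le (by norm_num) hL8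
        · apply div_le_div_of_nonneg_left (by norm_num) (by norm_num)
          calc (512 : ℝ) = 8 ^ 3 := by norm_num
            _ ≤ L ^ 3 := pow_le_pow_left₀ (by norm_num) hL8 3
            _ ≤ L ^ (A + 3) := pow_le_pow_right₀ hL1 (by omega)
    _ ≤ (N : ℝ) ^ 2 / L ^ A := by
        have hp : 0 ≤ (N : ℝ) ^ 2 / L ^ A := by positivity
        nlinarith

end Pool.Agent.L0h71.CL
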